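import Pool.Agent.Q240.CE.Stm

/-! # Project CE (helper240), job UpQ -/

set_option autoImplicit false

open Filter Topology Finset MeasureTheory

namespace Pool.Agent.Q150.CE

open Pool.Agent.Q240.CD Pool.Agent.Q240.CE

/-- JOB UpQ -/
theorem upQ (hL : S_Loc) : S_UpQ := by
  intro D
  obtain ⟨C, hC, hL⟩ := hL (D := D)
  refine ⟨C, hC, fun a y n f ha hy hy1 han hf hz => ?_⟩
  obtain ⟨hs, hle⟩ := hL a y n f ha hy hy1 han hf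
  set t : Y23.G.Zt → ℝ := fun ρ => if |(ρ : ℂ).re - 1 / 2| ≤ y then
    (Y23.G.mu (ρ : ℂ) : ℝ) * ‖Y23.TT f ((ρ : ℂ) - 1 / 2)‖ ^ 2 else 0 with ht
  have ht0 : ∀ ρ, 0 ≤ t ρ := by
    intro ρ
    simp only [ht]
    split_ifs
    · positivity
    · exact le_rfl
  have htle : ∀ ρ, t ρ ≤ (Y23.G.mu (ρ : ℂ) : ℝ) * ‖Y23.TT f ((ρ : ℂ) - 1 / 2)‖ ^ 2 := by
    intro ρ
    simp only [ht]
    split_ifs
    · exact le_rfl
    · positivity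
  have hts : Summable t := Summable.of_nonneg_of_le ht0 htle hs
  have hts' : Summable fun ρ => t (Y23.G.rfZ ρ) := (Y23.G.rfZ.summable_iff (f := t)).2 hts
  have hte : ∑' ρ, t (Y23.G.rfZ ρ) = ∑' ρ, t ρ := Y23.G.rfZ.tsum_eq t
  have hrf : ∀ ρ : Y23.G.Zt, ((Y23.G.rfZ ρ : Y23.G.Zt) : ℂ) - 1 / 2 =
      -(starRingEnd ℂ) ((ρ : ℂ) - 1 / 2) := fun ρ => by
    rw [Y23.G.rfZ_val, map_sub, map_div₀, map_one, map_ofNat]
    ring
  have hmu : ∀ ρ : Y23.G.Zt, Y23.G.mu (Y23.G.rfZ ρ : Y23.G.Zt) = Y23.G.mu ρ := fun ρ => by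
    rw [Y23.G.rfZ_val]
    exact Y23.G.ZD.mrefl _ ρ.2
  have hre : ∀ ρ : Y23.G.Zt, ((Y23.G.rfZ ρ : Y23.G.Zt) : ℂ).re - 1 / 2 = -((ρ : ℂ).re - 1 / 2) :=
    fun ρ => by
      rw [Y23.G.rfZ_val]
      simp only [Complex.sub_re, Complex.one_re, Complex.conj_re]
      ring
  -- the terms
  have hterm : ∀ ρ : Y23.G.Zt, -(1 / 2 * (t ρ + t (Y23.G.rfZ ρ))) ≤
      (Y23.G.mu (ρ : ℂ) : ℝ) * (Y23.G.GG f f ((ρ : ℂ) - 1 / 2)).re := by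
    intro ρ
    set w : ℂ := (ρ : ℂ) - 1 / 2 with hw
    by_cases h : |(ρ : ℂ).re - 1 / 2| ≤ y
    · have e1 : t ρ = (Y23.G.mu (ρ : ℂ) : ℝ) * ‖Y23.TT f w‖ ^ 2 := by
        simp only [ht]
        rw [if_pos h]
      have e2 : t (Y23.G.rfZ ρ) = (Y23.G.mu (ρ : ℂ) : ℝ) * ‖Y23.TT f (-(starRingEnd ℂ) w)‖ ^ 2 := by
        simp only [ht]
        rw [if_pos (by rw [hre, abs_neg]; exact h), hrf, hmu]
      rw [e1, e2]
      have h1 : -(1 / 2 * (‖Y23.TT f w‖ ^ 2 + ‖Y23.TT f (-(starRingEnd ℂ) w)‖ ^ 2)) ≤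
          (Y23.G.GG f f w).re := by
        have h2 : |(Y23.G.GG f f w).re| ≤ ‖Y23.G.GG f f w‖ := Complex.abs_re_le_norm _
        have h3 : ‖Y23.G.GG f f w‖ ≤
            1 / 2 * (‖Y23.TT f w‖ ^ 2 + ‖Y23.TT f (-(starRingEnd ℂ) w)‖ ^ 2) := by
          unfold Y23.G.GG
          rw [norm_mul, RCLike.norm_conj]
          nlinarith [sq_nonneg (‖Y23.TT f w‖ - ‖Y23.TT f (-(starRingEnd ℂ) w)‖)]
        have h4 := (abs_le.1 h2).1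
        linarith
      have h5 := mul_le_mul_of_nonneg_left h1 (Nat.cast_nonneg (Y23.G.mu (ρ : ℂ)) : (0:ℝ) ≤ _)
      calc _ = (Y23.G.mu (ρ : ℂ) : ℝ) *
            -(1 / 2 * (‖Y23.TT f w‖ ^ 2 + ‖Y23.TT f (-(starRingEnd ℂ) w)‖ ^ 2)) := by ring
        _ ≤ _ := h5
    · have hG : Y23.G.GG f f w = 0 := by
        unfold Y23.G.GG
        push Not at h
        rcases lt_abs.1 h with h1 | h1
        · rw [hz _ ρ.2 h1, zero_mul]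
        · have h2 := hz _ (Y23.G.rfZ ρ).2 (by rw [hre]; exact h1)
          rw [hrf] at h2
          rw [h2, map_zero, mul_zero]
      rw [hG, Complex.zero_re, mul_zero]
      have := ht0 ρ
      have := ht0 (Y23.G.rfZ ρ)
      linarith
  have hsum1 : Summable fun ρ => 1 / 2 * (t ρ + t (Y23.G.rfZ ρ)) := (hts.add hts').mul_left _
  -- summability of the form
  have hQs : Summable fun ρ : Y23.G.Zt =>
      (Y23.G.mu (ρ : ℂ) : ℝ) * (Y23.G.GG f f ((ρ : ℂ) - 1 / 2)).re := by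
    have hs' : Summable fun ρ : Y23.G.Zt =>
        (Y23.G.mu (ρ : ℂ) : ℝ) * ‖Y23.TT f (-(starRingEnd ℂ) ((ρ : ℂ) - 1 / 2))‖ ^ 2 := by
      have h1 := (Y23.G.rfZ.summable_iff (f := fun ρ : Y23.G.Zt =>
        (Y23.G.mu (ρ : ℂ) : ℝ) * ‖Y23.TT f ((ρ : ℂ) - 1 / 2)‖ ^ 2)).2 hs
      refine h1.congr fun ρ => ?_
      simp only [Function.comp]
      rw [hmu, hrf]
    refine Summable.of_norm_bounded ((hs.add hs').mul_left (1 / 2)) fun ρ => ?_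
    rw [norm_mul, Real.norm_natCast, Real.norm_eq_abs]
    have h3 : |(Y23.G.GG f f ((ρ : ℂ) - 1 / 2)).re| ≤ 1 / 2 * (‖Y23.TT f ((ρ : ℂ) - 1 / 2)‖ ^ 2 +
        ‖Y23.TT f (-(starRingEnd ℂ) ((ρ : ℂ) - 1 / 2))‖ ^ 2) := by
      refine (Complex.abs_re_le_norm _).trans ?_
      unfold Y23.G.GG
      rw [norm_mul, RCLike.norm_conj]
      nlinarith [sq_nonneg (‖Y23.TT f ((ρ : ℂ) - 1 / 2)‖ -
        ‖Y23.TT f (-(starRingEnd ℂ) ((ρ : ℂ) - 1 / 2))‖)]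
    have h5 := mul_le_mul_of_nonneg_left h3 (Nat.cast_nonneg (Y23.G.mu (ρ : ℂ)) : (0:ℝ) ≤ _)
    refine h5.trans (le_of_eq ?_)
    ring
  have hfin : -(∑' ρ, 1 / 2 * (t ρ + t (Y23.G.rfZ ρ))) ≤ Y23.G.QQ f := by
    unfold Y23.G.QQ
    rw [← tsum_neg]
    exact Summable.tsum_le_tsum hterm hsum1.neg hQs
  rw [tsum_mul_left, hts.tsum_add hts', hte] at hfin
  have h9 : ∑' ρ, t ρ ≤ C * a ^ 3 * Real.log (n + 2) ^ 2 * Real.exp (2 * y * a) * Y23.N2 f := hle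
  linarith

end Pool.Agent.Q150.CE
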